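import Mathlib

/-!
The least prime with decimal digit sum `86` is `6999999989`.  Its last two digits are `89`, which
refutes assertions (b) and (c) of De Koninck.
-/

namespace Pool.Agent.Results.MP_70678e_nt.DigitSumEightySix

/-- The sum of the decimal digits. -/
def s (n : ℕ) : ℕ := (Nat.digits 10 n).sum

/-- `p = ρ(k)`: `p` is the smallest prime whose decimal digit sum is `k`. -/
def IsRho (k p : ℕ) : Prop := IsLeast {q : ℕ | q.Prime ∧ s q = k} p

theorem s_rec (x y : ℕ) (hy : y < 10) : s (10 * x + y) = s x + y := by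
  unfold s
  rcases Nat.eq_zero_or_pos (10 * x + y) with h | h
  · have hx : x = 0 := by omega
    have hy0 : y = 0 := by omega
    subst hx; subst hy0; simp
  · rw [Nat.digits_def' (by norm_num) h, List.sum_cons]
    have h1 : (10 * x + y) % 10 = y := by omega
    have h2 : (10 * x + y) / 10 = x := by omega
    rw [h1, h2]; ring

theorem s_split (j a r : ℕ) (hr : r < 10 ^ j) : s (10 ^ j * a + r) = s a + s r := by
  induction j generalizing r with
  | zero =>
    have : r = 0 := by simpa using hr
    subst this
    simp [s]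
  | succ j ih =>
    have h1 : 10 ^ (j + 1) * a + r = 10 * (10 ^ j * a + r / 10) + r % 10 := by
      have := Nat.div_add_mod r 10
      rw [pow_succ]
      nlinarith
    have h2 : r / 10 < 10 ^ j := by
      rw [pow_succ] at hr; omega
    rw [h1, s_rec _ _ (Nat.mod_lt _ (by norm_num)), ih _ h2]
    have h3 : s r = s (r / 10) + r % 10 := by
      conv_lhs => rw [← Nat.div_add_mod r 10]
      exact s_rec _ _ (Nat.mod_lt _ (by norm_num))
    omega

theorem s_le (j r : ℕ) (hr : r < 10 ^ j) : s r ≤ 9 * j := by
  induction j generalizing r with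
  | zero =>
    have : r = 0 := by simpa using hr
    subst this
    simp [s]
  | succ j ih =>
    have h2 : r / 10 < 10 ^ j := by
      rw [pow_succ] at hr; omega
    have h3 : s r = s (r / 10) + r % 10 := by
      conv_lhs => rw [← Nat.div_add_mod r 10]
      exact s_rec _ _ (Nat.mod_lt _ (by norm_num))
    have := ih _ h2
    omega

theorem s_max (j r : ℕ) (hr : r < 10 ^ j) (h : s r = 9 * j) : r + 1 = 10 ^ j := by
  induction j generalizing r with
  | zero =>
    have : r = 0 := by simpa using hr
    subst this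
    simp
  | succ j ih =>
    have h2 : r / 10 < 10 ^ j := by
      rw [pow_succ] at hr; omega
    have h3 : s r = s (r / 10) + r % 10 := by
      conv_lhs => rw [← Nat.div_add_mod r 10]
      exact s_rec _ _ (Nat.mod_lt _ (by norm_num))
    have h4 := s_le j _ h2
    have h5 := ih _ h2 (by omega)
    rw [pow_succ]
    omega

theorem s_submax (j r : ℕ) (hr : r < 10 ^ j) (h : s r + 1 = 9 * j) :
    ∃ i < j, r + 1 + 10 ^ i = 10 ^ j := by
  induction j generalizing r with
  | zero => omega
  | succ j ih =>
    have h2 : r / 10 < 10 ^ j := by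
      rw [pow_succ] at hr; omega
    have h3 : s r = s (r / 10) + r % 10 := by
      conv_lhs => rw [← Nat.div_add_mod r 10]
      exact s_rec _ _ (Nat.mod_lt _ (by norm_num))
    have h4 := s_le j _ h2
    rcases Nat.lt_or_ge (r % 10) 9 with h6 | h6
    · have h5 := s_max j _ h2 (by omega)
      refine ⟨0, by omega, ?_⟩
      rw [pow_succ, pow_zero]
      omega
    · obtain ⟨i, hi, h5⟩ := ih _ h2 (by omega)
      refine ⟨i + 1, by omega, ?_⟩
      rw [pow_succ, pow_succ]
      omega

theorem prime_check : Nat.Prime 6999999989 := by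
  have h : ∀ i < 290, ∀ j < 290, 2 ≤ 290 * i + j → ¬ (6999999989 % (290 * i + j) = 0) := by
    decide +kernel
  rw [Nat.prime_def_le_sqrt]
  refine ⟨by norm_num, fun m hm hm2 hd => ?_⟩
  have h1 : m * m ≤ 6999999989 := by
    have := Nat.le_sqrt.1 hm2
    exact this
  have h2 : m < 290 * 290 := by nlinarith
  have h3 := h (m / 290) (by omega) (m % 290) (by omega)
  have h4 : 290 * (m / 290) + m % 290 = m := by omega
  rw [h4] at h3
  exact h3 hm (Nat.mod_eq_zero_of_dvd hd)

theorem least (q : ℕ) (hq : q.Prime) (hs : s q = 86) : 6999999989 ≤ q := by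
  by_contra hlt
  push Not at hlt
  have hsplit : q = 10 ^ 9 * (q / 10 ^ 9) + q % 10 ^ 9 := by omega
  have hr : q % 10 ^ 9 < 10 ^ 9 := Nat.mod_lt _ (by norm_num)
  have ha : q / 10 ^ 9 ≤ 6 := by omega
  have hs' : s (q / 10 ^ 9) + s (q % 10 ^ 9) = 86 := by
    rw [← s_split 9 _ _ hr, ← hsplit, hs]
  have hsr := s_le 9 _ hr
  set a := q / 10 ^ 9 with haa
  set r := q % 10 ^ 9 with hrr
  have hsa : s a = a := by
    interval_cases a <;> simp [s]
  rw [hsa] at hs'
  have ha5 : a = 5 ∨ a = 6 := by omega
  rcases ha5 with h5 | h6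
  · have h1 := s_max 9 r hr (by omega)
    have h2 : q = 5999999999 := by rw [hsplit, h5]; omega
    rw [h2] at hq
    exact absurd hq (by norm_num)
  · obtain ⟨i, hi, h1⟩ := s_submax 9 r hr (by omega)
    have h2 : q = 6999999999 - 10 ^ i := by rw [hsplit, h6]; omega
    interval_cases i
    · rw [h2] at hlt; omega
    · rw [h2] at hlt; omega
    all_goals
      rw [h2] at hq
      exact absurd hq (by norm_num)

theorem isRho_86 : IsRho 86 6999999989 := by
  refine ⟨⟨prime_check, ?_⟩, fun q hq => least q hq.1 hq.2⟩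
  norm_num [s]

/-- `ρ(86) = 6999999989`; therefore it is false that `ρ(k) ≡ 99 (mod 100)` for every `k > 38` for
which `ρ(k)` is defined, and false that `ρ(k) ≡ 999 (mod 1000)` for every such `k > 59`. -/
theorem result :
    IsRho 86 6999999989 ∧
    (¬ ∀ k p : ℕ, 38 < k → IsRho k p → p % 100 = 99) ∧
    (¬ ∀ k p : ℕ, 59 < k → IsRho k p → p % 1000 = 999) := by
  refine ⟨isRho_86, fun h => ?_, fun h => ?_⟩
  · have := h 86 _ (by norm_num) isRho_86
    norm_num at this
  · have := h 86 _ (by norm_num) isRho_86
    norm_num at this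

end Pool.Agent.Results.MP_70678e_nt.DigitSumEightySix
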